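import Pool.Agent.Lib.MP_28303a_al.NK.Group
import Mathlib.GroupTheory.HNNExtension

/-! # Definitions for the finitely presented universal torsionfree group

All groups are in `Type`. -/

set_option autoImplicit false

namespace Pool.Agent.NegK.Hig

open SemidirectProduct

/-! ### Multiple HNN extensions -/

/-- A family of partial isomorphisms of `K`: the `i`-th one sends `α i c` to `β i c`. -/
structure PSys (K : Type) [Group K] (I : Type) where
  C : I → Type
  [grp : ∀ i, Group (C i)]
  α : ∀ i, C i →* K
  β : ∀ i, C i →* K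
  α_inj : ∀ i, Function.Injective (α i)
  β_inj : ∀ i, Function.Injective (β i)

attribute [instance] PSys.grp

/-- The partial isomorphisms restrict to partial isomorphisms of `H`. -/
def PSys.Compat {K : Type} [Group K] {I : Type} (P : PSys K I) (H : Subgroup K) : Prop :=
  ∀ (i : I) (c : P.C i), P.α i c ∈ H ↔ P.β i c ∈ H

/-- The system of partial isomorphisms of a larger group. -/
def PSys.push {K : Type} [Group K] {I : Type} (P : PSys K I) {G : Type} [Group G] (e : K →* G)
    (he : Function.Injective e) : PSys G I where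
  C := P.C
  grp := P.grp
  α i := e.comp (P.α i)
  β i := e.comp (P.β i)
  α_inj i := he.comp (P.α_inj i)
  β_inj i := he.comp (P.β_inj i)

/-- The subgroup generated by `e H` and the stable letters. -/
def gen {K : Type} [Group K] {I : Type} {G : Type} [Group G] (e : K →* G) (s : I → G)
    (H : Subgroup K) : Subgroup G :=
  Subgroup.closure (e '' (H : Set K) ∪ Set.range s)

theorem gen_of {K : Type} [Group K] {I : Type} {G : Type} [Group G] (e : K →* G) (s : I → G)
    {H : Subgroup K} {x : K} (hx : x ∈ H) : e x ∈ gen e s H :=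
  Subgroup.subset_closure (Or.inl ⟨x, hx, rfl⟩)

theorem gen_s {K : Type} [Group K] {I : Type} {G : Type} [Group G] (e : K →* G) (s : I → G)
    (H : Subgroup K) (i : I) : s i ∈ gen e s H :=
  Subgroup.subset_closure (Or.inr ⟨i, rfl⟩)

/-- `G` is the HNN extension of `K` with stable letters `s i` and the partial isomorphisms `P`
(the properties which are used). -/
structure IsHNN {K : Type} [Group K] {I : Type} (P : PSys K I) {G : Type} [Group G]
    (e : K →* G) (s : I → G) : Prop where
  inj : Function.Injective e
  rel : ∀ (i : I) (c : P.C i), s i * e (P.α i c) = e (P.β i c) * s i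
  gen_top : gen e s ⊤ = ⊤
  sub : ∀ H : Subgroup K, P.Compat H → ∀ x : K, e x ∈ gen e s H → x ∈ H
  lift : ∀ H : Subgroup K, P.Compat H → ∀ (X : Type) [Group X] (f : H →* X) (σ : I → X),
    (∀ (i : I) (c : P.C i) (h1 : P.α i c ∈ H) (h2 : P.β i c ∈ H),
      σ i * f ⟨P.α i c, h1⟩ = f ⟨P.β i c, h2⟩ * σ i) →
    ∃ F : gen e s H →* X, (∀ h : H, F ⟨e h, gen_of e s h.2⟩ = f h) ∧
      ∀ i, F ⟨s i, gen_s e s H i⟩ = σ i
  tf : TorsionFree K → TorsionFree G
  fp : Group.IsFinitelyPresented K → (∀ i, Group.FG (P.C i)) → Group.IsFinitelyPresented G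

/-! ### Torsionfree quotients of free groups -/

/-- The smallest normal subgroup containing `s` with torsionfree quotient. -/
def isol {F : Type} [Group F] (s : Set F) : Subgroup F :=
  sInf {N : Subgroup F | N.Normal ∧ (∀ (g : F) (n : ℕ), 0 < n → g ^ n ∈ N → g ∈ N) ∧ s ⊆ N}

instance {F : Type} [Group F] (s : Set F) : (isol s).Normal := by
  refine ⟨fun x hx g => ?_⟩
  unfold isol at hx ⊢
  rw [Subgroup.mem_sInf] at hx ⊢
  intro N hN
  exact hN.1.conj_mem x (hx N hN) g

theorem subset_isol {F : Type} [Group F] (s : Set F) : s ⊆ isol s := by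
  intro x hx
  have h : x ∈ isol s := by
    unfold isol
    rw [Subgroup.mem_sInf]
    intro N hN
    exact hN.2.2 hx
  exact h

theorem isol_pow {F : Type} [Group F] (s : Set F) (g : F) (n : ℕ) (hn : 0 < n)
    (h : g ^ n ∈ isol s) : g ∈ isol s := by
  unfold isol at h ⊢
  rw [Subgroup.mem_sInf] at h ⊢
  intro N hN
  exact hN.2.1 g n hn (h N hN)

/-- The largest torsionfree group generated by `F` with the relations `s`. -/
abbrev TQ {F : Type} [Group F] (s : Set F) : Type := F ⧸ isol s

theorem torsionFree_TQ {F : Type} [Group F] (s : Set F) : TorsionFree (TQ s) := by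
  intro x n hn hx
  induction x using QuotientGroup.induction_on with
  | H g =>
    rw [QuotientGroup.eq_one_iff]
    refine isol_pow s g n hn ?_
    rw [← QuotientGroup.eq_one_iff, QuotientGroup.mk_pow]
    exact hx

theorem isol_le_ker {F H : Type} [Group F] [Group H] (hH : TorsionFree H) (s : Set F)
    (f : F →* H) (hf : ∀ x ∈ s, f x = 1) : isol s ≤ f.ker := by
  refine sInf_le ⟨inferInstance, fun g n hn hg => ?_, fun x hx => ?_⟩
  · rw [MonoidHom.mem_ker, map_pow] at hg
    rw [MonoidHom.mem_ker]
    exact hH _ n hn hg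
  · exact (MonoidHom.mem_ker).2 (hf x hx)

/-- Homomorphisms to torsionfree groups. -/
def TQ.lift {F H : Type} [Group F] [Group H] (hH : TorsionFree H) (s : Set F)
    (f : F →* H) (hf : ∀ x ∈ s, f x = 1) : TQ s →* H :=
  QuotientGroup.lift (isol s) f (fun _ hx => (MonoidHom.mem_ker).1 (isol_le_ker hH s f hf hx))

/-! ### The universal group `UT` and the two-generated group `GU` -/

/-- Tables: a list of relations `x_i x_j = x_k`. -/
abbrev Tab : Type := List (ℕ × ℕ × ℕ)

/-- The relators of the universal group. -/
def relU : Set (FreeGroup (Tab × ℕ)) :=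
  {w | ∃ (T : Tab) (i j k : ℕ), (i, j, k) ∈ T ∧
    w = FreeGroup.of (T, i) * FreeGroup.of (T, j) * (FreeGroup.of (T, k))⁻¹}

/-- The universal countable torsionfree group. -/
abbrev UT : Type := TQ relU

/-- The free group of rank two. -/
abbrev F2 : Type := FreeGroup (Fin 2)

/-- The stable letter `t`. -/
def lt : F2 := FreeGroup.of 0

/-- The letter `y`. -/
def ly : F2 := FreeGroup.of 1

/-- `x = t y t⁻¹`. -/
def lx : F2 := lt * ly * lt⁻¹

/-- The word for the `n`-th generator of `UT`. -/
def gam (n : ℕ) : F2 :=
  lt * (lx⁻¹ ^ n * ly * lx ^ n) * lt⁻¹ * (ly⁻¹ ^ n * lx * ly ^ n)⁻¹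

/-- The word for the generator `x_{(T,i)}`. -/
def gamT (T : Tab) (i : ℕ) : F2 := gam (Encodable.encode (T, i) + 1)

/-- The relators of the group `GU`. -/
def rel2 : Set F2 :=
  {w | (∃ n, w = gam n * lx * (gam n)⁻¹ * lx⁻¹) ∨ (∃ n, w = gam n * ly * (gam n)⁻¹ * ly⁻¹) ∨
    ∃ (T : Tab) (i j k : ℕ), (i, j, k) ∈ T ∧ w = gamT T i * gamT T j * (gamT T k)⁻¹}

/-- The two-generated universal torsionfree group. -/
abbrev GU : Type := TQ rel2

/-! ### The base group `ℤ^J * Free(S)` as `Free(S × ℤ^J) ⋊ ℤ^J` -/

/-- The translation by `v` on the free group with basis `S × L`. -/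
def shiftE (S : Type) {L : Type} [AddCommGroup L] (v : L) :
    FreeGroup (S × L) ≃* FreeGroup (S × L) :=
  FreeGroup.freeGroupCongr ((Equiv.refl S).prodCongr (Equiv.addRight v))

theorem shiftE_of (S : Type) {L : Type} [AddCommGroup L] (v : L) (s : S) (u : L) :
    shiftE S v (FreeGroup.of (s, u)) = FreeGroup.of (s, u + v) := by
  simp [shiftE, FreeGroup.freeGroupCongr]

theorem shiftE_add (S : Type) {L : Type} [AddCommGroup L] (u v : L) (w : FreeGroup (S × L)) :
    shiftE S (u + v) w = shiftE S u (shiftE S v w) := by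
  have h : (shiftE S (u + v)).toMonoidHom = (shiftE S u).toMonoidHom.comp
      (shiftE S v).toMonoidHom := by
    refine FreeGroup.ext_hom _ _ fun p => ?_
    obtain ⟨s, a⟩ := p
    show shiftE S (u + v) (FreeGroup.of (s, a)) = shiftE S u (shiftE S v (FreeGroup.of (s, a)))
    rw [shiftE_of, shiftE_of, shiftE_of, add_comm u v, add_assoc]
  exact DFunLike.congr_fun h w

theorem shiftE_zero (S : Type) {L : Type} [AddCommGroup L] (w : FreeGroup (S × L)) :
    shiftE S (0 : L) w = w := by
  have h : (shiftE S (0 : L)).toMonoidHom = MonoidHom.id _ := by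
    refine FreeGroup.ext_hom _ _ fun p => ?_
    obtain ⟨s, a⟩ := p
    show shiftE S (0 : L) (FreeGroup.of (s, a)) = FreeGroup.of (s, a)
    rw [shiftE_of, add_zero]
  exact DFunLike.congr_fun h w

/-- The translation action of `L` on the free group with basis `S × L`. -/
def shift (S L : Type) [AddCommGroup L] : Multiplicative L →* MulAut (FreeGroup (S × L)) where
  toFun v := shiftE S v.toAdd
  map_one' := MulEquiv.ext fun w => shiftE_zero S w
  map_mul' u v := MulEquiv.ext fun w => shiftE_add S u.toAdd v.toAdd w

theorem shift_of (S L : Type) [AddCommGroup L] (v : Multiplicative L) (s : S) (u : L) :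
    shift S L v (FreeGroup.of (s, u)) = FreeGroup.of (s, u + v.toAdd) :=
  shiftE_of S v.toAdd s u

/-- The base group. -/
abbrev Bas (S L : Type) [AddCommGroup L] : Type :=
  FreeGroup (S × L) ⋊[shift S L] Multiplicative L

section

variable {S L S' M : Type} [AddCommGroup L] [AddCommGroup M]

/-- The element `x^u s x^-u` of the base group. -/
def tt (s : S) (u : L) : Bas S L := inl (FreeGroup.of (s, u))

/-- The element `x^v` of the base group. -/
def xx (S : Type) {L : Type} [AddCommGroup L] (v : L) : Bas S L := inr (Multiplicative.ofAdd v)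

theorem xx_tt (v : L) (s : S) (u : L) : xx S v * tt s u = tt s (u + v) * xx S v := by
  refine SemidirectProduct.ext ?_ ?_
  · simp [xx, tt, shift_of]
  · simp [xx, tt]

/-- The homomorphism given by `x^v ↦ x^(m v)` and `s ↦ c s`. -/
def Bas.hom (m : M →+ L) (c : S' → FreeGroup (S × L)) : Bas S' M →* Bas S L :=
  SemidirectProduct.map
    (FreeGroup.lift fun p : S' × M => shift S L (Multiplicative.ofAdd (m p.2)) (c p.1))
    (AddMonoidHom.toMultiplicative m) (by
      intro v
      refine FreeGroup.ext_hom _ _ fun p => ?_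
      obtain ⟨s, u⟩ := p
      simp only [MonoidHom.comp_apply, MulEquiv.coe_toMonoidHom, shift_of,
        FreeGroup.lift_apply_of]
      rw [map_add, ofAdd_add, mul_comm, map_mul]
      rfl)

end

/-! ### Words -/

/-- The alphabet: the letters of `F2` and their inverses. -/
abbrev Sg : Type := Fin 2 × Bool

/-- The element of `F2` given by a word. -/
abbrev ev (w : List Sg) : F2 := FreeGroup.mk w

/-! ### Machines -/

/-- A deterministic machine with control states `Q` and counters `J`, together with a coding of
words by configurations. A step replaces the counter `n j` by `al * (n j / 5) + be`. -/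
structure Mach where
  Q : Type
  J : Type
  [fQ : Finite Q]
  [fJ : Finite J]
  nxt : Q → (J → ZMod 5) → Q
  al : Q → (J → ZMod 5) → J → ℕ
  be : Q → (J → ZMod 5) → J → ℕ
  al_pos : ∀ q r j, 0 < al q r j
  qin : Q
  enc : List Sg → (J → ℤ)
  mul : (J → ℤ) →+ (J → ℤ)
  mul_inj : Function.Injective mul
  kap : Sg → (J → ℤ)
  enc_append : ∀ (w : List Sg) (a : Sg), enc (w ++ [a]) = mul (enc w) + kap a
  enc_sep : ∀ (w : List Sg) (u : J → ℤ) (a : Sg), enc w = mul u + kap a →
    ∃ v, w = v ++ [a] ∧ u = enc v
  qh : Q
  nh : J → ℤ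
  fix_q : nxt qh (fun j => (nh j : ZMod 5)) = qh
  fix_n : ∀ j, (al qh (fun j => (nh j : ZMod 5)) j : ℤ) * (nh j / 5) +
    be qh (fun j => (nh j : ZMod 5)) j = nh j

attribute [instance] Mach.fQ Mach.fJ

/-- The lattice of the counters. -/
abbrev Mach.L (m : Mach) : Type := m.J → ℤ

/-- The residues. -/
def Mach.res (m : Mach) (n : m.L) : m.J → ZMod 5 := fun j => (n j : ZMod 5)

/-- One step of the machine. -/
def Mach.step (m : Mach) (c : m.Q × m.L) : m.Q × m.L :=
  (m.nxt c.1 (m.res c.2), fun j => m.al c.1 (m.res c.2) j * (c.2 j / 5) + m.be c.1 (m.res c.2) j)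

/-- The configurations from which the final configuration is reached. -/
def Mach.Z (m : Mach) : Set (m.Q × m.L) := {c | ∃ k, m.step^[k] c = (m.qh, m.nh)}

/-- The words accepted by the machine. -/
def Mach.Acc (m : Mach) (w : List Sg) : Prop := (m.qin, m.enc w) ∈ m.Z

/-! ### The letters -/

/-- Generators of the base group: `t_q` for the control states `q`, `d`, and the letters of
`F2`. -/
abbrev Mach.S (m : Mach) : Type := m.Q ⊕ Unit ⊕ Fin 2

/-- The base group of the machine. -/
abbrev Mach.K (m : Mach) : Type := Bas m.S m.L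

/-- The generator `t_q(n)` in the free group. -/
def Mach.fq (m : Mach) (q : m.Q) (n : m.L) : FreeGroup (m.S × m.L) := FreeGroup.of (.inl q, n)

/-- The generator `d` in the free group. -/
def Mach.fd (m : Mach) : FreeGroup (m.S × m.L) := FreeGroup.of (.inr (.inl ()), 0)

/-- The embedding of `F2` into the free group. -/
def Mach.fc (m : Mach) : F2 →* FreeGroup (m.S × m.L) :=
  FreeGroup.map fun j => (.inr (.inr j), 0)

/-- The embedding of `F2` into the base group. -/
def Mach.ic (m : Mach) : F2 →* m.K := inl.comp m.fc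

/-- The vector of multiplication by `5`. -/
def mul5 (J : Type) : (J → ℤ) →+ (J → ℤ) where
  toFun n j := 5 * n j
  map_zero' := by ext j; simp
  map_add' a b := by ext j; simp [mul_add]

/-- The vector of multiplication by `a`. -/
def mulv {J : Type} (a : J → ℕ) : (J → ℤ) →+ (J → ℤ) where
  toFun n j := a j * n j
  map_zero' := by ext j; simp
  map_add' a b := by ext j; simp [mul_add]

/-- The source of the machine letter `(q, r)`: `x^v ↦ x^(5 v)`, `s ↦ t_q(r)`. -/
noncomputable def Mach.rα (m : Mach) (i : m.Q × (m.J → ZMod 5)) : Bas Unit m.L →* m.K :=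
  Bas.hom (mul5 m.J) fun _ => m.fq i.1 fun j => ((i.2 j).val : ℤ)

/-- The target of the machine letter `(q, r)`. -/
noncomputable def Mach.rβ (m : Mach) (i : m.Q × (m.J → ZMod 5)) : Bas Unit m.L →* m.K :=
  Bas.hom (mulv (m.al i.1 i.2)) fun _ => m.fq (m.nxt i.1 i.2) fun j => (m.be i.1 i.2 j : ℤ)

/-- Generators of the source of the word letters: `t`, `d`, the letters of `F2`. -/
abbrev S3 : Type := Unit ⊕ Unit ⊕ Fin 2

/-- The source of the word letters. -/
noncomputable def Mach.pα (m : Mach) : Bas S3 m.L →* m.K :=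
  Bas.hom (AddMonoidHom.id m.L) fun s =>
    match s with
    | .inl _ => m.fq m.qin 0
    | .inr (.inl _) => m.fd
    | .inr (.inr j) => FreeGroup.of (.inr (.inr j), 0)

/-- The target of the word letter `a`: `x^v ↦ x^(mul v)`, `t ↦ t(kap a)`, `d ↦ a d`, `c_j ↦ c_j`. -/
noncomputable def Mach.pβ (m : Mach) (a : Sg) : Bas S3 m.L →* m.K :=
  Bas.hom m.mul fun s =>
    match s with
    | .inl _ => m.fq m.qin (m.kap a)
    | .inr (.inl _) => m.fc (ev [a]) * m.fd
    | .inr (.inr j) => FreeGroup.of (.inr (.inr j), 0)

/-- The homomorphisms which define the stable letters are injective. -/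
structure Mach.Inj (m : Mach) : Prop where
  rα : ∀ i, Function.Injective (m.rα i)
  rβ : ∀ i, Function.Injective (m.rβ i)
  pα : Function.Injective m.pα
  pβ : ∀ a, Function.Injective (m.pβ a)

/-- The system of the machine letters. -/
noncomputable def Mach.rsys (m : Mach) (h : m.Inj) : PSys m.K (m.Q × (m.J → ZMod 5)) where
  C _ := Bas Unit m.L
  grp _ := inferInstance
  α := m.rα
  β := m.rβ
  α_inj := h.rα
  β_inj := h.rβ

/-- The system of the word letters. -/
noncomputable def Mach.psys (m : Mach) (h : m.Inj) : PSys m.K Sg where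
  C _ := Bas S3 m.L
  grp _ := inferInstance
  α _ := m.pα
  β := m.pβ
  α_inj _ := h.pα
  β_inj := h.pβ

/-- The element `t(w)` of the base group. -/
def Mach.tw (m : Mach) (w : List Sg) : m.K := inl (m.fq m.qin (m.enc w))

/-- The element `t(w) w d` of the base group. -/
def Mach.vw (m : Mach) (w : List Sg) : m.K := m.tw w * m.ic (ev w) * inl m.fd

/-- The subgroup generated by all `t(w)`. -/
def Mach.T1 (m : Mach) : Subgroup m.K := Subgroup.closure (Set.range m.tw)

/-- The subgroup generated by all `t(w) w d`. -/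
def Mach.V1 (m : Mach) : Subgroup m.K := Subgroup.closure (Set.range m.vw)

/-- The subgroup generated by `t_q(n)` for the configurations `(q, n)` from which the final
configuration is reached, by `d` and by `N`. -/
def Mach.H0 (m : Mach) (N : Subgroup F2) : Subgroup m.K :=
  Subgroup.closure ({x | ∃ c ∈ m.Z, x = inl (m.fq c.1 c.2)} ∪ {inl m.fd} ∪ m.ic '' (N : Set F2))

/-- The subgroup generated by `t(w)` for the accepted words. -/
def Mach.TE (m : Mach) : Subgroup m.K := Subgroup.closure {x | ∃ w, m.Acc w ∧ x = m.tw w}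

/-- The subgroup generated by `t(w) w d` for the accepted words. -/
def Mach.VE (m : Mach) : Subgroup m.K := Subgroup.closure {x | ∃ w, m.Acc w ∧ x = m.vw w}

/-- The product `p_(a_k) ... p_(a_1)` of the word letters for the word `a_1 ... a_k`. -/
def pwd (w : List Sg) : FreeGroup (Option Sg) :=
  ((w.map fun a => FreeGroup.of (some a)).reverse).prod

/-- The homomorphism `t ↦ g`, `p_a ↦ p a`. -/
def thet {G : Type} [Group G] (g : G) (p : Sg → G) : FreeGroup (Option Sg) →* G :=
  FreeGroup.lift fun o => o.elim g p

/-! ### The isomorphism of two images and single HNN extensions -/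

/-- The isomorphism `α c ↦ β c`. -/
noncomputable def pIso {C K : Type} [Group C] [Group K] {α β : C →* K}
    (hα : Function.Injective α) (hβ : Function.Injective β) : α.range ≃* β.range :=
  (MonoidHom.ofInjective hα).symm.trans (MonoidHom.ofInjective hβ)

/-- The HNN extension with the relations `t (α c) t⁻¹ = β c`. -/
abbrev Hnn {C K : Type} [Group C] [Group K] {α β : C →* K}
    (hα : Function.Injective α) (hβ : Function.Injective β) : Type :=
  HNNExtension K α.range β.range (pIso hα hβ)

/-- The system of one partial isomorphism. -/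
def psys1 {C K : Type} [Group C] [Group K] {α β : C →* K}
    (hα : Function.Injective α) (hβ : Function.Injective β) : PSys K Unit where
  C _ := C
  grp _ := inferInstance
  α _ := α
  β _ := β
  α_inj _ := hα
  β_inj _ := hβ

/-- The identity of a subgroup as a system of one partial isomorphism. -/
abbrev psysId {K : Type} [Group K] (L : Subgroup K) : PSys K Unit :=
  psys1 (α := L.subtype) (β := L.subtype) L.subtype_injective L.subtype_injective

/-- The subgroup generated by `F` and `s⁻¹ F s`. -/
def dbl {F G : Type} [Group F] [Group G] (i : F →* G) (s : G) : Subgroup G :=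
  Subgroup.closure (Set.range i ∪ Set.range fun f => s⁻¹ * i f * s)

theorem dbl_left {F G : Type} [Group F] [Group G] (i : F →* G) (s : G) (f : F) :
    i f ∈ dbl i s := Subgroup.subset_closure (Or.inl ⟨f, rfl⟩)

theorem dbl_right {F G : Type} [Group F] [Group G] (i : F →* G) (s : G) (f : F) :
    s⁻¹ * i f * s ∈ dbl i s := Subgroup.subset_closure (Or.inr ⟨f, rfl⟩)

/-- A group which maps onto a free group of rank two, with a section and with free kernel. -/
def IsFbF (C : Type) [Group C] : Prop :=
  ∃ (π : C →* F2) (σ : F2 →* C), π.comp σ = MonoidHom.id F2 ∧ IsFreeGroup π.ker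

/-- The embedding `x ↦ (x, 1)` of a subgroup. -/
def incA {G : Type} [Group G] (E : Subgroup G) (H : Type) [Group H] : E →* G × H :=
  (MonoidHom.inl G H).comp E.subtype

/-- The embedding `x ↦ (x, ψ x)` of a subgroup. -/
def incB {G : Type} [Group G] (E : Subgroup G) {H : Type} [Group H] (ψ : E →* H) : E →* G × H :=
  MonoidHom.prod E.subtype ψ

theorem incA_inj {G : Type} [Group G] (E : Subgroup G) (H : Type) [Group H] :
    Function.Injective (incA E H) := fun _ _ h => Subtype.ext (congrArg Prod.fst h)

theorem incB_inj {G : Type} [Group G] (E : Subgroup G) {H : Type} [Group H] (ψ : E →* H) :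
    Function.Injective (incB E ψ) := fun _ _ h => Subtype.ext (congrArg Prod.fst h)

end Pool.Agent.NegK.Hig
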