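import Pool.Agent.Lib.MP_28303a_al.HIG.Defs

/-! # Statements of the modules (group theory and computability)

See `Paper.md`. Do not import this file in `Results`. Theorem names: module name in lower case. -/

set_option autoImplicit false

namespace Pool.Agent.NegK.Hig

open HNNExtension SemidirectProduct

/-! ### A. HNN extensions -/

/-- FPH (80 lines). An HNN extension of a finitely presented group with finitely generated
associated subgroup is finitely presented: quotient of `G * ℤ` (Monoid.Coprod, instance in Mathlib)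
by the finitely many relations `t a t⁻¹ = φ a`, `a` in a generating set of `A`; use
`Group.IsFinitelyPresented.of_surjective`. -/
def FphStatement : Prop :=
  ∀ (G : Type) [Group G] (A B : Subgroup G) (φ : A ≃* B), Group.IsFinitelyPresented G → A.FG →
    Group.IsFinitelyPresented (HNNExtension G A B φ)

/-- HSUB (200 lines). Subgroups of HNN extensions: if `φ (H ∩ A) = H ∩ B`, then `⟨H, t⟩ ∩ G = H`,
and `⟨H, t⟩` is the HNN extension of `H`. The map `HNNExtension H (A.subgroupOf H)
(B.subgroupOf H) _ → HNNExtension G A B φ` sends reduced words to reduced words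
(`HNNExtension.ReducedWord`, Britton's lemma `toList_eq_nil_of_mem_of_range`), so it is injective. -/
def HsubStatement : Prop :=
  ∀ (G : Type) [Group G] (A B : Subgroup G) (φ : A ≃* B) (H : Subgroup G),
    (∀ a : A, (a : G) ∈ H ↔ (φ a : G) ∈ H) →
    (∀ x : G, (of x : HNNExtension G A B φ) ∈
      Subgroup.closure ((of : G →* HNNExtension G A B φ) '' (H : Set G) ∪ {t}) → x ∈ H) ∧
    ∀ (X : Type) [Group X] (f : H →* X) (τ : X),
      (∀ (a : A) (h1 : (a : G) ∈ H) (h2 : (φ a : G) ∈ H), τ * f ⟨a, h1⟩ = f ⟨φ a, h2⟩ * τ) →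
      ∃ F : Subgroup.closure ((of : G →* HNNExtension G A B φ) '' (H : Set G) ∪ {t}) →* X,
        (∀ (h : H) (hh : (of (h : G) : HNNExtension G A B φ) ∈ _), F ⟨of (h : G), hh⟩ = f h) ∧
        ∀ hh : (t : HNNExtension G A B φ) ∈ _, F ⟨t, hh⟩ = τ

/-- ONE (100 lines, takes HSUB, HNNTF, FPH). One stable letter. -/
def OneStatement : Prop :=
  ∀ (C K : Type) [Group C] [Group K] (α β : C →* K) (hα : Function.Injective α)
    (hβ : Function.Injective β),
    IsHNN (psys1 hα hβ) (of : K →* Hnn hα hβ) (fun _ : Unit => (t : Hnn hα hβ))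

/-- ITER (200 lines, takes ONE). Finitely many stable letters, by induction on the number of
letters: add one letter over the group already constructed (the associated subgroups stay in `K`).
For `H` compatible: `gen e s H` (old letters) is compatible with the new letter because it meets
`K` in `H`. -/
def IterStatement : Prop :=
  ∀ (K : Type) [Group K] (I : Type) [Finite I] (P : PSys K I),
    ∃ (G : Type) (_ : Group G) (e : K →* G) (s : I → G), IsHNN P e s

/-! ### B. The base group -/

/-- BASTF (60 lines). -/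
def BastfStatement : Prop := ∀ (S J : Type), TorsionFree (Bas S (J → ℤ))

/-- BASFP (150 lines). `Bas S (J → ℤ)` is the free product of `FreeGroup S` and `ℤ^J`; free abelian
groups of finite rank are finitely presented. Or directly: quotient of the free group on `S ⊕ J`
by the commutators of the generators in `J`. -/
def BasfpStatement : Prop :=
  ∀ (S J : Type) [Finite S] [Finite J], Group.IsFinitelyPresented (Bas S (J → ℤ))

/-- INJM (100 lines). The four families of homomorphisms are injective. `rα`, `rβ`, `pα`: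
`FreeGroup.map` of an injective map of the bases; `pβ`: the same followed by the automorphism
`d(u) ↦ a(u) d(u)`. -/
def InjmStatement : Prop := ∀ m : Mach, m.Inj

/-- ZCL (30 lines). -/
def ZclStatement : Prop := ∀ (m : Mach) (c : m.Q × m.L), c ∈ m.Z ↔ m.step c ∈ m.Z

/-- RCOMP (150 lines, takes ZCL). `H0` is compatible with the machine letters: the retraction
`t_q(5u + r) ↦ s(u)`, all other basis elements `↦ 1`, maps `H0` into the closure of the `s(u)` with
`(q, 5u + r) ∈ Z`; the same for the target with `al u + be`. -/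
def RcompStatement : Prop :=
  ∀ (m : Mach) (h : m.Inj) (N : Subgroup F2), (m.rsys h).Compat (m.H0 N)

/-- PCOMP (150 lines). `T1` and `V1` are compatible with the word letters. `ζ : t(w) ↦ v_w`, all
other basis elements `↦ 1`, is an isomorphism of `T1` (and of `V1`) onto the free group on the
words; an element of `T1` (`V1`) in the image of `pβ a` has a `ζ`-image which involves only the
`v_w` with `w = w' a` (by `enc_sep`), so it is in the image of `T1` (`V1`). -/
def PcompStatement : Prop :=
  ∀ (m : Mach) (h : m.Inj), (m.psys h).Compat m.T1 ∧ (m.psys h).Compat m.V1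

/-- INT (120 lines). Intersections in the base group; `ζ` again, and the retraction onto `F2`. -/
def IntStatement : Prop :=
  ∀ (m : Mach) (N : Subgroup F2), (∀ w, m.Acc w ↔ ev w ∈ N) →
    m.T1 ⊓ m.H0 N ≤ m.TE ∧ m.V1 ⊓ m.H0 N ≤ m.VE ∧ m.TE ≤ m.H0 N ∧ m.VE ≤ m.H0 N ∧
      (m.H0 N).comap m.ic = N

/-- CONJ (50 lines). `t(w)` and `t(w) w d` are conjugates by the product of the word letters. -/
def ConjStatement : Prop :=
  ∀ (m : Mach) (h : m.Inj) (Gr : Type) [Group Gr] (e : m.K →* Gr) (he : Function.Injective e)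
    (G1 : Type) [Group G1] (e1 : Gr →* G1) (p : Sg → G1),
    IsHNN ((m.psys h).push e he) e1 p → ∀ w : List Sg,
      thet (e1 (e (m.tw []))) p (pwd w * FreeGroup.of none * (pwd w)⁻¹) = e1 (e (m.tw w)) ∧
      thet (e1 (e (m.vw []))) p (pwd w * FreeGroup.of none * (pwd w)⁻¹) = e1 (e (m.vw w))

/-- PFREE (120 lines, takes PCOMP, CONJ). `t, p_a` generate a free group, and so do `t d, p_a`:
`IsHNN.lift` for the images of `T1`, `V1` and `f : t(w) ↦ pwd w * t * (pwd w)⁻¹`, all other basis
elements `↦ 1`; the composite with `thet` is the identity. -/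
def PfreeStatement : Prop :=
  ∀ (m : Mach) (h : m.Inj) (Gr : Type) [Group Gr] (e : m.K →* Gr) (he : Function.Injective e)
    (G1 : Type) [Group G1] (e1 : Gr →* G1) (p : Sg → G1),
    IsHNN ((m.psys h).push e he) e1 p →
      Function.Injective (thet (e1 (e (m.tw []))) p) ∧
      Function.Injective (thet (e1 (e (m.vw []))) p)

/-! ### C. The group with the benign subgroup -/

/-- ZCOMP (150 lines, takes RCOMP, PCOMP, INT, CONJ, PFREE). The subgroup `P = ⟨H0, r's⟩` is
compatible with the letter `z : t ↦ t d, p_a ↦ p_a`. An element of `P` in the image of `thet` lies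
in the group of the machine letters, hence (`IsHNN.sub` of the word letters for `T1`) in `T1`,
hence (`sub` of the machine letters for `H0`, INT) in `TE`, hence it is `thet` of a product of
`pwd w * of none * (pwd w)⁻¹` with accepted `w` (CONJ), and these are sent to `VE ≤ P`. -/
def ZcompStatement : Prop :=
  ∀ (m : Mach) (h : m.Inj) (N : Subgroup F2), (∀ w, m.Acc w ↔ ev w ∈ N) →
    ∀ (Gr : Type) [Group Gr] (e : m.K →* Gr) (r : m.Q × (m.J → ZMod 5) → Gr)
      (hr : IsHNN (m.rsys h) e r) (G1 : Type) [Group G1] (e1 : Gr →* G1) (p : Sg → G1),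
      IsHNN ((m.psys h).push e hr.inj) e1 p → ∀ w : FreeGroup (Option Sg),
        thet (e1 (e (m.tw []))) p w ∈ (gen e r (m.H0 N)).map e1 ↔
          thet (e1 (e (m.vw []))) p w ∈ (gen e r (m.H0 N)).map e1

/-- LGEN (100 lines, takes CONJ). The subgroup `⟨P, z⟩` is finitely generated: it is generated by
the final configuration, `d`, the machine letters and `z`, because `t_c = r⁻¹ t_(step c) r` and
`w = t(w)⁻¹ (z t(w) z⁻¹) d⁻¹` for accepted words. -/
def LgenStatement : Prop :=
  ∀ (m : Mach) (h : m.Inj) (N : Subgroup F2), (∀ w, m.Acc w ↔ ev w ∈ N) →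
    ∀ (Gr : Type) [Group Gr] (e : m.K →* Gr) (r : m.Q × (m.J → ZMod 5) → Gr)
      (hr : IsHNN (m.rsys h) e r) (G1 : Type) [Group G1] (e1 : Gr →* G1) (p : Sg → G1),
      IsHNN ((m.psys h).push e hr.inj) e1 p →
      ∀ (hα : Function.Injective (thet (e1 (e (m.tw []))) p))
        (hβ : Function.Injective (thet (e1 (e (m.vw []))) p))
        (G2 : Type) [Group G2] (e2 : G1 →* G2) (z : Unit → G2),
        IsHNN (psys1 hα hβ) e2 z → (gen e2 z ((gen e r (m.H0 N)).map e1)).FG

/-- HIGM (100 lines, takes ITER, BASTF, BASFP, INJM, RCOMP, INT, PFREE, ZCOMP, LGEN). -/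
def HigmStatement : Prop :=
  ∀ (m : Mach) (N : Subgroup F2), (∀ w, m.Acc w ↔ ev w ∈ N) →
    ∃ (K : Type) (_ : Group K) (i : F2 →* K) (L : Subgroup K), Function.Injective i ∧
      Group.IsFinitelyPresented K ∧ TorsionFree K ∧ L.FG ∧ L.comap i = N

/-! ### D. The last two letters -/

/-- DBL (200 lines). `s` commutes with `L`, `L ∩ F = N`: `⟨F, s⟩` is
`FreeGroup (F ⧸ N) ⋊ F` (`s ↦ (of 1, 1)`; inverse `of f ↦ f s f⁻¹`), so `C = ⟨F, s⁻¹ F s⟩` maps onto
`F` with free kernel (subgroup of a free group: Nielsen-Schreier is in Mathlib), and there is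
`ψ : C → F ⧸ N`, `f ↦ f`, `s⁻¹ f s ↦ 1` (`IsHNN.lift` to the wreath product of `F ⧸ N` and `ℤ/2`,
`s ↦` the swap; then the first coordinate). -/
def DblStatement : Prop :=
  ∀ (K : Type) [Group K] (i : F2 →* K) (L : Subgroup K) (N : Subgroup F2) [N.Normal],
    Function.Injective i → L.comap i = N →
    ∀ (G : Type) [Group G] (e : K →* G) (s : Unit → G), IsHNN (psysId L) e s →
      IsFbF (dbl (e.comp i) (s ())) ∧
      ∃ ψ : dbl (e.comp i) (s ()) →* F2 ⧸ N,
        (∀ f : F2, ψ ⟨e.comp i f, dbl_left _ _ f⟩ = QuotientGroup.mk f) ∧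
        ∀ f : F2, ψ ⟨(s ())⁻¹ * e.comp i f * s (), dbl_right _ _ f⟩ = 1

/-- ROPE (200 lines, takes FPH or does it directly). The Higman rope trick: the last HNN extension
is finitely presented. It is the quotient of `G * FreeGroup (Option (Fin 2))` (generators `y`, `c_j`)
by `[g, c_j]` (`g` in a finite generating set of `G`), `y i(x_j) y⁻¹ = i(x_j) c_j`,
`y s⁻¹ i(x_j) s y⁻¹ = s⁻¹ i(x_j) s`; for `f ∈ N`: `i f = s⁻¹ (i f) s`, so `f(c) = 1` follows. -/
def RopeStatement : Prop :=
  ∀ (G : Type) [Group G] (i : F2 →* G) (s : G) (N : Subgroup F2) [N.Normal],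
    Group.IsFinitelyPresented G → (∀ f ∈ N, s⁻¹ * i f * s = i f) →
    ∀ (ψ : dbl i s →* F2 ⧸ N), (∀ f : F2, ψ ⟨i f, dbl_left _ _ f⟩ = QuotientGroup.mk f) →
      (∀ f : F2, ψ ⟨s⁻¹ * i f * s, dbl_right _ _ f⟩ = 1) →
      Group.IsFinitelyPresented (Hnn (incA_inj (dbl i s) (F2 ⧸ N)) (incB_inj (dbl i s) ψ))

/-- GRP (60 lines, takes HIGM, ONE, DBL, ROPE, HNNTF). The group theoretic result. -/
def GrpStatement : Prop :=
  ∀ (m : Mach) (N : Subgroup F2) [N.Normal], (∀ w, m.Acc w ↔ ev w ∈ N) →
    TorsionFree (F2 ⧸ N) →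
    ∃ (G : Type) (_ : Group G) (C : Type) (_ : Group C) (α β : C →* G × (F2 ⧸ N))
      (hα : Function.Injective α) (hβ : Function.Injective β), IsFbF C ∧
        Group.IsFinitelyPresented (Hnn hα hβ) ∧ TorsionFree (Hnn hα hβ)

/-! ### E. Computability -/

/-- MACH (250 lines). From `ustep`, `halts_iff`, `mach` of `Lib/MP_d61eec_lc/TM.lean` (import it):
the same machine without the time counter, and in the halting state all counters are divided by
`5`, so that the final configuration is `(none, 0)`. Words are coded by the binary numbers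
`v [] = 1`, `v (w ++ [a]) = 4 * v w + a.1 + 2 * a.2`, whose stack codes satisfy
`enc (w ++ [a]) = 25 enc w + 5 dig + dig`. -/
def MachStatement : Prop :=
  ∀ E : List Sg → Prop, REPred E → ∃ m : Mach, ∀ w, m.Acc w ↔ E w

/-- ISORE (250 lines). The isolator closure of a recursively enumerable set is recursively
enumerable: words derivable from `f n` by products, inverses, conjugates, insertion and deletion of
`x x⁻¹`, and roots; enumerate the derivable words by course-of-values recursion
(`Computable.nat_strong_rec` / `Primrec`). Tools for words: `Lib/MP_d61eec_lc/Comp.lean`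
(`reduce_primrec`, `invRev_primrec`). -/
def IsoreStatement : Prop :=
  ∀ f : ℕ → List Sg, Computable f →
    REPred fun w : List Sg => ev w ∈ isol (Set.range fun n => ev (f n))

/-- RELRE (150 lines). The relators of `GU` can be enumerated. -/
def RelreStatement : Prop :=
  ∃ f : ℕ → List Sg, Computable f ∧ isol (Set.range fun n => ev (f n)) = isol rel2

/-! ### F. The group `GU` -/

/-- GEQ (250 lines). `GU` is an HNN extension of `UT × F2` (`F2` free on `x = of 0`, `y = of 1`):
`A` is generated by `(1, x⁻ⁿ y xⁿ)`, `B` by `(g_n, y⁻ⁿ x yⁿ)` with `g_0 = 1`,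
`g_(n+1) = x_(T,i)`, `n = encode (T, i)`. Both directions by universal properties
(`TQ.lift`, `HNNExtension.lift`); `A`, `B` free as in module EMB (H12). Torsionfree: HNNTF. -/
def GeqStatement : Prop :=
  ∃ (A B : Subgroup (UT × F2)) (φ : A ≃* B), Nonempty (A ≃* FreeGroup ℕ) ∧
    Nonempty (HNNExtension (UT × F2) A B φ ≃* GU)

/-- HIG (the final theorem of this part, takes GRP, MACH, ISORE, RELRE). -/
def HigStatement : Prop :=
  ∃ (G : Type) (_ : Group G) (C : Type) (_ : Group C) (α β : C →* G × GU)
      (hα : Function.Injective α) (hβ : Function.Injective β), IsFbF C ∧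
        Group.IsFinitelyPresented (Hnn hα hβ) ∧ TorsionFree (Hnn hα hβ)

end Pool.Agent.NegK.Hig
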